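import Mathlib
import Pool.Agent.N753.DR.Stm5
import Pool.Agent.W223.AC.Key
import Pool.Agent.Y729.RV.Rank
import Pool.Agent.Y728.MN.Lv
import Pool.Agent.W460.AC.NORM
import Pool.Agent.W989.AC.MULT
import Pool.Agent.W597.AC.LOC

/-!
# CV/KEYB: primes at which a point of a cover meets the fibre over a closed point
-/

set_option autoImplicit false

namespace Pool.Agent.N395.CV

open NumberField IsDedekindDomain Module Polynomial
open Pool.Agent.N753.DR
open Pool.Agent.W223.CV (cc ct ct_pos ct_nonneg ct_support ct_neg log_norm_nonneg)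
open Pool.Agent.W223.AC (StmtNB StmtNORM StmtMULT StmtLOC val_finite not_mem_of_dvd tt IntEl
  val_nat_eq_one)
open Pool.Agent.Y729.RV (aQ aQX tower1 finiteX faithfulX rankX dimE)

/-- points near the zeros of `τ` are near one of the parts -/
theorem nearG (hM : StmtMULT) (hL : StmtLOC) (A : Type) [CommRing A] [Algebra ℚ[X] A]
    [Module.Finite ℚ[X] A] (r u s : ℕ) (τ : Fin r → A) (y : Fin u → A) (z : Fin s → A)
    (hyz : ∀ i k, y i * z k ∈ (Ideal.span (Set.range τ)).radical) :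
    ∃ M : ℕ, M ≠ 0 ∧ ∀ (L : Type) [Field L] [NumberField L] (φ : A →+* L)
      (v : HeightOneSpectrum (𝓞 L)), (M : 𝓞 L) ∉ v.asIdeal → v.valuation L (φ (tt A)) ≤ 1 →
      (∀ l, v.valuation L (φ (τ l)) < 1) →
      (∀ i, v.valuation L (φ (y i)) < 1) ∨ ∀ k, v.valuation L (φ (z k)) < 1 := by
  classical
  have h1 : ∀ i k, ∃ (n : ℕ) (b : Fin r → A) (N : Fin r → ℕ), (∀ l, N l ≠ 0) ∧
      (∀ l, IntEl ((N l : A) * b l)) ∧ (y i * z k) ^ n = ∑ l, b l * τ l := by
    intro i k
    obtain ⟨n, hn⟩ := hyz i k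
    obtain ⟨b, hb⟩ := Ideal.mem_span_range_iff_exists_fun.mp hn
    choose N hN hi using fun l => hM A (b l)
    exact ⟨n, b, N, hN, hi, hb.symm⟩
  choose n b N hN hi hb using h1
  refine ⟨∏ i, ∏ k, ∏ l, N i k l, Finset.prod_ne_zero_iff.mpr fun i _ =>
    Finset.prod_ne_zero_iff.mpr fun k _ => Finset.prod_ne_zero_iff.mpr fun l _ => hN i k l, ?_⟩
  intro L _ _ φ v hv ht hτ
  by_contra hcon
  rw [not_or] at hcon
  obtain ⟨h2, h3⟩ := hcon
  push Not at h2 h3
  obtain ⟨i, hyi⟩ := h2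
  obtain ⟨k, hzk⟩ := h3
  have h6 : 1 ≤ v.valuation L (φ ((y i * z k) ^ n i k)) := by
    rw [map_pow, map_pow, map_mul, map_mul]
    exact one_le_pow₀ (one_le_mul_of_one_le_of_one_le hyi hzk)
  have h7 : v.valuation L (φ ((y i * z k) ^ n i k)) < 1 := by
    rw [hb, map_sum]
    refine Valuation.map_sum_lt _ one_ne_zero fun l _ => ?_
    have h4 : (N i k l : 𝓞 L) ∉ v.asIdeal := by
      intro h5
      apply hv
      have h6 : N i k l ∣ ∏ i, ∏ k, ∏ l, N i k l :=
        ((Finset.dvd_prod_of_mem (fun l => N i k l) (Finset.mem_univ l)).trans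
          (Finset.dvd_prod_of_mem (fun k => ∏ l, N i k l) (Finset.mem_univ k))).trans
          (Finset.dvd_prod_of_mem (fun i => ∏ k, ∏ l, N i k l) (Finset.mem_univ i))
      obtain ⟨c, hc⟩ := h6
      rw [hc]
      push_cast
      exact Ideal.mul_mem_right _ _ h5
    have h5 := hL A _ (hi i k l) L φ v ht
    rw [map_mul, map_mul, map_natCast, val_nat_eq_one v _ h4, one_mul] at h5
    rw [map_mul, map_mul, mul_comm]
    exact mul_lt_one_of_nonneg_of_lt_one_left zero_le (hτ l) h5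
  exact absurd h7 (not_lt.mpr h6)

/-- a finite sum is bounded by the counting function -/
theorem sum_le_cc {L : Type} [Field L] [NumberField L] (S : Finset ℕ)
    {A : HeightOneSpectrum (𝓞 L) → Prop} (hA : {v | A v}.Finite)
    (W : Finset (HeightOneSpectrum (𝓞 L)))
    (hW : ∀ w ∈ W, (∀ p ∈ S, (p : 𝓞 L) ∉ w.asIdeal) ∧ A w) :
    ∑ w ∈ W, lN w ≤ cc S A := by
  classical
  unfold cc
  have hsupp : Function.support (ct S A) ⊆ ((hA.toFinset ∪ W : Finset _) : Set _) := by
    intro v hv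
    rw [Function.mem_support] at hv
    rw [Finset.coe_union]
    left
    rw [Set.Finite.coe_toFinset]
    by_contra h
    exact hv (ct_neg fun h1 => h h1.2)
  rw [finsum_eq_sum_of_support_subset _ hsupp]
  calc ∑ w ∈ W, lN w = ∑ w ∈ W, ct S A w :=
        Finset.sum_congr rfl fun w hw => (ct_pos (hW w hw)).symm
    _ ≤ ∑ w ∈ hA.toFinset ∪ W, ct S A w :=
        Finset.sum_le_sum_of_subset_of_nonneg Finset.subset_union_right
          fun w _ _ => ct_nonneg S A w

theorem keyB (hNB : StmtNB) (hNO : StmtNORM) (hMU : StmtMULT) (hLO : StmtLOC) : StmKeyB := by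
  classical
  intro K A A' _ _ _ _ _ _ _ _ _ _ _ π q u v g y F hF hyF ε hε
  letI iQ := aQ K A'
  letI iQX := aQX K A'
  have i1 : IsScalarTower ℚ ℚ[X] A' := tower1 K A'
  have i2 : Module.Finite ℚ[X] A' := finiteX K A'
  have i3 : FaithfulSMul ℚ[X] A' := faithfulX K A'
  have htt : tt A' = algebraMap K[X] A' X := by
    show algebraMap K[X] A' (Polynomial.mapRingHom (algebraMap ℚ K) X) = _
    rw [coe_mapRingHom, map_X]
  have hNoeth : IsNoetherianRing A' := inferInstance
  have hfg : ∀ j, ∃ (s : ℕ) (z : Fin s → A'), Ideal.span (Set.range z) = F j := fun j =>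
    Submodule.fg_iff_exists_fin_generating_family.mp (hNoeth.noetherian (F j))
  choose s z hz using hfg
  have hq0 : (0 : ℝ) < (q : ℝ) + 1 := by positivity
  have hNB' := fun j => hNB A' (F j) (hF j) (s j) (z j) (hz j) (ε / (q + 1)) (by positivity)
  choose M₁ C₁ G₁ hM₁ hC₁ hG₁ hNB'' using hNB'
  have hNE := fun j => nearG hMU hLO A' (u j) (v j) (s j) (fun l => π (g j l)) (y j) (z j)
    (fun i k => hyF j i _ (by rw [← hz j]; exact Ideal.subset_span ⟨k, rfl⟩))
  choose M₂ hM₂ hNE' using hNE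
  have hzne : ∀ j, ∃ k, z j k ≠ 0 := by
    intro j
    by_contra hcon
    push Not at hcon
    apply hF j
    rw [← hz j, Ideal.span_eq_bot]
    rintro _ ⟨k, rfl⟩
    exact hcon k
  choose k₀ hk₀ using hzne
  have hNO' := fun j => hNO A' _ (hk₀ j)
  choose G₂ hG₂ hNO'' using hNO'
  refine ⟨∏ j, (M₁ j * M₂ j), ∑ j, C₁ j, ∏ j, (G₁ j * G₂ j),
    Finset.prod_ne_zero_iff.mpr fun j _ => mul_ne_zero (hM₁ j) (hM₂ j),
    Finset.sum_nonneg fun j _ => hC₁ j,
    Finset.prod_ne_zero_iff.mpr fun j _ => mul_ne_zero (hG₁ j) (hG₂ j), ?_⟩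
  intro S L _ _ _ P hG hne W W' hW hW'
  set x := P (algebraMap K[X] A' X) with hx
  have hx' : (P : A' →+* L) (tt A') = x := by
    rw [htt]
    rfl
  have hdiv : ∀ j, M₁ j * M₂ j ∣ ∏ j, (M₁ j * M₂ j) := fun j =>
    Finset.dvd_prod_of_mem (fun j => M₁ j * M₂ j) (Finset.mem_univ j)
  have hGj : ∀ j, aeval x (G₁ j) ≠ 0 ∧ aeval x (G₂ j) ≠ 0 := by
    intro j
    rw [map_prod, Finset.prod_ne_zero_iff] at hG
    have := hG j (Finset.mem_univ j)
    rw [map_mul] at this
    exact ⟨left_ne_zero_of_mul this, right_ne_zero_of_mul this⟩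
  have hEfin : ∀ j, {w : HeightOneSpectrum (𝓞 L) | w.valuation L x ≤ 1 ∧
      ∀ k, w.valuation L (P (z j k)) < 1}.Finite := by
    intro j
    exact (val_finite _ (hNO'' j L (P : A' →+* L) (by rw [hx']; exact (hGj j).2))).subset
      fun w hw => hw.2 (k₀ j)
  have hd : (Module.finrank ℚ K : ℝ) ≠ 0 := by
    have : 0 < Module.finrank ℚ K := Module.finrank_pos
    positivity
  have hrk : ∀ j, (Module.finrank ℚ (A' ⧸ F j) : ℝ) / Module.finrank ℚ[X] A' =
      (Module.finrank K (A' ⧸ F j) : ℝ) / Module.finrank K[X] A' := by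
    intro j
    have e1 : Module.finrank ℚ (A' ⧸ F j) =
        Module.finrank ℚ K * Module.finrank K (A' ⧸ F j) := dimE K A' (F j)
    have e2 : Module.finrank ℚ[X] A' = Module.finrank ℚ K * Module.finrank K[X] A' := rankX K A'
    rw [e1, e2]
    push_cast
    rw [mul_div_mul_left _ _ hd]
  obtain ⟨Wj, hWj⟩ : ∃ Wj : Fin q → Finset (HeightOneSpectrum (𝓞 L)),
      Wj = fun j => W.filter fun w => ∀ k, w.valuation L (P (z j k)) < 1 := ⟨_, rfl⟩
  have hlN : ∀ w : HeightOneSpectrum (𝓞 L), 0 ≤ lN w := fun w => log_norm_nonneg w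
  -- the splitting
  have hsplit : ∑ w ∈ W, lN w ≤ ∑ w ∈ W', lN w + ∑ j, ∑ w ∈ Wj j, lN w := by
    have h1 : ∀ w ∈ W, lN w ≤ (if w ∈ W' then lN w else 0) +
        ∑ j, (if ∀ k, w.valuation L (P (z j k)) < 1 then lN w else 0) := by
      intro w hw
      obtain ⟨hw1, hw2, hw3, j, hw4⟩ := hW w hw
      have h0 : 0 ≤ ∑ j, (if ∀ k, w.valuation L (P (z j k)) < 1 then lN w else 0) :=
        Finset.sum_nonneg fun j _ => by
          split_ifs
          · exact hlN w
          · exact le_rfl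
      have h2 : ((M₂ j : ℕ) : 𝓞 L) ∉ w.asIdeal :=
        not_mem_of_dvd ((Dvd.intro_left _ rfl).trans (hdiv j)) hw1
      rcases hNE' j L (P : A' →+* L) w h2 (by rw [hx']; exact hw3) hw4 with h3 | h3
      · rw [if_pos (hW' w hw2 hw3 ⟨j, hw4, h3⟩)]
        linarith
      · have h4 : lN w ≤ ∑ j, (if ∀ k, w.valuation L (P (z j k)) < 1 then lN w else 0) := by
          refine le_trans (le_of_eq ?_) (Finset.single_le_sum (f := fun j =>
            if ∀ k, w.valuation L (P (z j k)) < 1 then lN w else 0) (fun j _ => by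
              show (0 : ℝ) ≤ if ∀ k, w.valuation L (P (z j k)) < 1 then lN w else 0
              split_ifs
              · exact hlN w
              · exact le_rfl) (Finset.mem_univ j))
          exact (if_pos h3).symm
        have h5 : (0 : ℝ) ≤ if w ∈ W' then lN w else 0 := by
          split_ifs
          · exact hlN w
          · exact le_rfl
        linarith
    refine (Finset.sum_le_sum h1).trans ?_
    rw [Finset.sum_add_distrib, Finset.sum_comm]
    refine add_le_add ?_ (Finset.sum_le_sum fun j _ => ?_)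
    · rw [← Finset.sum_filter]
      exact Finset.sum_le_sum_of_subset_of_nonneg
        (fun w hw => (Finset.mem_filter.1 hw).2) fun w _ _ => hlN w
    · rw [hWj, ← Finset.sum_filter]
  have hh : 0 ≤ Height.logHeight₁ x := Height.zero_le_logHeight₁ x
  have h5 : ∀ j, ∑ w ∈ Wj j, lN w ≤
      ((Module.finrank K (A' ⧸ F j) : ℝ) / Module.finrank K[X] A' + ε / (q + 1)) *
        Height.logHeight₁ x + Module.finrank ℚ L * C₁ j := by
    intro j
    have h6 := hNB'' j L (P : A' →+* L) (by rw [hx']; exact (hGj j).1)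
    rw [hx', hrk j, ← Height.logHeight₁_eq_log_mulHeight₁] at h6
    refine le_trans (sum_le_cc {M₁ j} (hEfin j) (Wj j) fun w hw => ?_) h6
    rw [hWj, Finset.mem_filter] at hw
    obtain ⟨hw1, hw2⟩ := hw
    obtain ⟨hw3, -, hw4, -⟩ := hW w hw1
    refine ⟨fun p hp => ?_, hw4, hw2⟩
    rw [Finset.mem_singleton] at hp
    rw [hp]
    exact not_mem_of_dvd ((Dvd.intro _ rfl).trans (hdiv j)) hw3
  have h6 := Finset.sum_le_sum fun j (_ : j ∈ Finset.univ) => h5 j
  have h7 : ∑ j, (((Module.finrank K (A' ⧸ F j) : ℝ) / Module.finrank K[X] A' + ε / (q + 1)) *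
        Height.logHeight₁ x + Module.finrank ℚ L * C₁ j) =
      ((∑ j, (Module.finrank K (A' ⧸ F j) : ℝ)) / Module.finrank K[X] A' + q * (ε / (q + 1))) *
            Height.logHeight₁ x + Module.finrank ℚ L * ∑ j, C₁ j := by
    rw [Finset.sum_add_distrib, ← Finset.sum_mul, ← Finset.mul_sum, Finset.sum_add_distrib,
      ← Finset.sum_div, Finset.sum_const, Finset.card_univ, Fintype.card_fin, nsmul_eq_mul]
  rw [h7] at h6
  have h8 : (q : ℝ) * (ε / (q + 1)) ≤ ε := by
    rw [mul_div_assoc', div_le_iff₀ hq0]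
    nlinarith
  have h9 := mul_le_mul_of_nonneg_right h8 hh
  linarith

/-- **CV/KEYB** -/
theorem t : StmKeyB :=
  keyB Pool.Agent.Y728.MN.partNB Pool.Agent.W460.AC.t Pool.Agent.W989.AC.MULT.t
    Pool.Agent.W597.AC.t

end Pool.Agent.N395.CV
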